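import Pool.Agent.helper84.NR.Spec

/-!
# Row `nrv:CCT` (MP_133bfc_co)
-/

set_option autoImplicit false

namespace Pool.Agent.helper84.NR

open scoped Classical
open Finset

theorem CCT (hXCL : XCL_stmt) (hCLS : CLS_stmt) : CCT_stmt := by
  intro V F _ _ M x y J hT
  haveI : Fintype (Quot (lk M (inU M x y J))) := Fintype.ofFinite _
  rw [Nat.card_eq_fintype_card, ← Finset.card_univ]
  obtain ⟨hX1, hX2⟩ := hXCL V F M x y J hT
  obtain ⟨A0, hA0⟩ := M.cover x
  obtain ⟨B0, hB0⟩ := M.cover y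
  have h1 : (univ : Finset (Quot (lk M (inU M x y J)))) ⊆
      insert (Quot.mk _ A0) (insert (Quot.mk _ B0) (univ.filter fun q =>
        (∀ A, OnV M.toCyc A x → Quot.mk _ A ≠ q) ∧ (∀ B, OnV M.toCyc B y → Quot.mk _ B ≠ q))) := by
    intro q _
    rw [mem_insert, mem_insert]
    by_cases ha : ∃ A, OnV M.toCyc A x ∧ Quot.mk _ A = q
    · obtain ⟨A, hA, rfl⟩ := ha
      exact Or.inl (hX1 A A0 hA hA0)
    · by_cases hb : ∃ B, OnV M.toCyc B y ∧ Quot.mk _ B = q
      · obtain ⟨B, hB, rfl⟩ := hb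
        exact Or.inr (Or.inl (hX2 B B0 hB hB0))
      · refine Or.inr (Or.inr ?_)
        exact mem_filter.2 ⟨mem_univ _, fun A hA h => ha ⟨A, hA, h⟩, fun B hB h => hb ⟨B, hB, h⟩⟩
  have h2 : (univ : Finset (Quot (lk M (inU M x y J)))).card ≤ (univ.filter fun q =>
        (∀ A, OnV M.toCyc A x → Quot.mk (lk M (inU M x y J)) A ≠ q) ∧
        (∀ B, OnV M.toCyc B y → Quot.mk (lk M (inU M x y J)) B ≠ q)).card + 1 + 1 := by
    refine (card_le_card h1).trans ?_
    refine (card_insert_le _ _).trans ?_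
    exact Nat.add_le_add_right (card_insert_le _ _) 1
  have h3 : (univ.filter fun q =>
        (∀ A, OnV M.toCyc A x → Quot.mk (lk M (inU M x y J)) A ≠ q) ∧
        (∀ B, OnV M.toCyc B y → Quot.mk (lk M (inU M x y J)) B ≠ q)).card * 2 ≤
        (gaps M x y J).card * 1 := by
    refine card_mul_le_card_mul (fun (q : Quot (lk M (inU M x y J))) (c : (_ : F) × ℕ) =>
      ∃ g, OnE M.toCyc g s(ww M y c.1 c.2, ww M y c.1 (c.2 + 1)) ∧ Quot.mk _ g = q) ?_ ?_
    · intro q hq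
      obtain ⟨-, hqx, hqy⟩ := mem_filter.1 hq
      obtain ⟨c1, hc1, c2, hc2, hne, h1, h2⟩ := hCLS V F M x y J hT q hqx hqy
      refine Nat.succ_le_of_lt (one_lt_card.2 ?_)
      exact ⟨c1, mem_filter.2 ⟨hc1, h1⟩, c2, mem_filter.2 ⟨hc2, h2⟩, hne⟩
    · intro c hc
      rw [card_le_one]
      intro q hq q' hq'
      obtain ⟨hqD, g, hg, hgq⟩ := mem_filter.1 hq
      obtain ⟨hqD', g', hg', hgq'⟩ := mem_filter.1 hq'
      obtain ⟨-, -, hqy⟩ := mem_filter.1 hqD
      obtain ⟨-, -, hqy'⟩ := mem_filter.1 hqD'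
      have hcJ : c.1 ∈ J := by
        unfold gaps at hc
        exact (mem_sigma.1 hc).1
      have hcy : OnV M.toCyc c.1 y := hT.jy c.1 hcJ
      have hcE : OnE M.toCyc c.1 s(ww M y c.1 c.2, ww M y c.1 (c.2 + 1)) :=
        ⟨st M y c.1 + c.2, rfl⟩
      obtain ⟨f', -, -, hall⟩ := M.two _ _ hcE
      have e1 : g = f' := by
        rcases hall g hg with h | h
        · exact absurd (by rw [← hgq, h]) (hqy c.1 hcy)
        · exact h
      have e2 : g' = f' := by
        rcases hall g' hg' with h | h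
        · exact absurd (by rw [← hgq', h]) (hqy' c.1 hcy)
        · exact h
      rw [← hgq, ← hgq', e1, e2]
  omega

end Pool.Agent.helper84.NR
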