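import Pool.Agent.helper84.NR.Spec

/-!
# Row `nrv:DEG` (MP_133bfc_co)
-/

set_option autoImplicit false

namespace Pool.Agent.helper84.NR

open scoped Classical
open Finset

theorem DEG_nb (hIDX : IDX_stmt) {V F : Type} (M : Cyc V F) (A : F) (z : V) (hz : OnV M A z) :
    ∃ a b, a ≠ b ∧ ∀ w, OnE M A s(z, w) ↔ (w = a ∨ w = b) := by
  obtain ⟨k0, hk0⟩ := hz
  obtain ⟨h1, h2, h3, h4, h5⟩ := hIDX V F M A k0
  have hl := M.three A
  refine ⟨M.bd A (k0 + 1), M.bd A (k0 + (M.len A - 1)), ?_, ?_⟩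
  · intro h
    have h6 := h1 1 (M.len A - 1) (by omega) (by omega) h
    omega
  · intro w
    constructor
    · intro h
      obtain ⟨a, ha, hs⟩ := h3 _ h
      rw [Sym2.eq_iff] at hs
      rcases hs with ⟨hz1, hw⟩ | ⟨hz1, hw⟩
      · have h6 : 0 = a := h1 0 a (by omega) ha (by rw [Nat.add_zero, hk0]; exact hz1)
        subst h6
        exact Or.inl hw
      · right
        have h6 : a = M.len A - 1 := by
          by_contra hne
          have h7 := h1 0 (a + 1) (by omega) (by omega) (by rw [Nat.add_zero, hk0]; exact hz1)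
          omega
        rw [← h6]
        exact hw
    · rintro (rfl | rfl)
      · exact ⟨k0, by rw [hk0]⟩
      · refine ⟨k0 + (M.len A - 1), ?_⟩
        rw [show k0 + (M.len A - 1) + 1 = k0 + M.len A by omega, h5, hk0]
        exact Sym2.eq_swap

theorem DEG_nb2 (hIDX : IDX_stmt) {V F : Type} (M : Cyc V F) (A : F) (v z : V) (hv : OnV M A v)
    (hz : OnE M A s(v, z)) :
    ∃ a, a ≠ z ∧ ∀ w, OnE M A s(v, w) ↔ (w = z ∨ w = a) := by
  obtain ⟨a, b, hab, h⟩ := DEG_nb hIDX M A v hv
  rcases (h z).1 hz with rfl | rfl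
  · exact ⟨b, hab.symm, h⟩
  · exact ⟨a, hab, fun w => (h w).trans or_comm⟩

theorem DEG (hIDX : IDX_stmt) (hEDG : EDG_stmt) : DEG_stmt := by
  intro V F _ _ M z
  obtain ⟨hE1, hE2⟩ := hEDG V F M
  have P1 : ∀ v A A', v ≠ z → ¬ Adj M.toCyc z v → OnV M.toCyc A z → OnV M.toCyc A v →
      OnV M.toCyc A' z → OnV M.toCyc A' v → A = A' := by
    intro v A A' hv hadj h1 h2 h3 h4
    by_contra hne
    exact hadj ⟨A, (M.poly A A' hne z v hv.symm h1 h2 h3 h4).1⟩
  have P2' : ∀ v, Adj M.toCyc z v → ∃ f g, g ≠ f ∧ OnE M.toCyc f s(z, v) ∧ OnE M.toCyc g s(z, v) ∧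
      ∀ A, (OnV M.toCyc A z ∧ OnV M.toCyc A v) ↔ (A = f ∨ A = g) := by
    intro v hv
    obtain ⟨f, hf⟩ := id hv
    obtain ⟨g, hgf, hg, hall⟩ := M.two _ f hf
    refine ⟨f, g, hgf, hf, hg, fun A => ⟨?_, ?_⟩⟩
    · rintro ⟨h1, h2⟩
      exact hall A (hE2 A z v hv h1 h2)
    · rintro (rfl | rfl)
      · obtain ⟨h1, h2, -⟩ := hE1 _ z v hf
        exact ⟨h1, h2⟩
      · obtain ⟨h1, h2, -⟩ := hE1 _ z v hg
        exact ⟨h1, h2⟩
  have P2 : ∀ v, Adj M.toCyc z v →
      (univ.filter (fun A => OnV M.toCyc A z ∧ OnV M.toCyc A v)).card = 2 := by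
    intro v hv
    obtain ⟨f, g, hgf, -, -, hall⟩ := P2' v hv
    rw [show univ.filter (fun A => OnV M.toCyc A z ∧ OnV M.toCyc A v) = {f, g} by
      ext A
      rw [mem_filter, mem_insert, mem_singleton]
      exact ⟨fun h => (hall A).1 h.2, fun h => ⟨mem_univ _, (hall A).2 h⟩⟩]
    exact card_pair hgf.symm
  have P3 : ∀ A, OnV M.toCyc A z →
      (univ.filter (fun v => Adj M.toCyc z v ∧ OnV M.toCyc A v)).card = 2 := by
    intro A hA
    obtain ⟨a, b, hab, h⟩ := DEG_nb hIDX M.toCyc A z hA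
    rw [show univ.filter (fun v => Adj M.toCyc z v ∧ OnV M.toCyc A v) = {a, b} by
      ext v
      rw [mem_filter, mem_insert, mem_singleton]
      constructor
      · rintro ⟨-, h1, h2⟩
        exact (h v).1 (hE2 A z v h1 hA h2)
      · intro h1
        have h2 := (h v).2 h1
        exact ⟨mem_univ _, ⟨A, h2⟩, (hE1 A z v h2).2.1⟩]
    exact card_pair hab
  have P4 : (univ.filter (fun A => OnV M.toCyc A z)).card =
      (univ.filter (fun v => Adj M.toCyc z v)).card := by
    have h := card_mul_eq_card_mul (s := univ.filter (fun A => OnV M.toCyc A z))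
      (t := univ.filter (fun v => Adj M.toCyc z v)) (m := 2) (n := 2)
      (fun A v => OnV M.toCyc A v) ?_ ?_
    · omega
    · intro A hA
      rw [← P3 A (mem_filter.1 hA).2]
      unfold bipartiteAbove
      rw [filter_filter]
    · intro v hv
      rw [← P2 v (mem_filter.1 hv).2]
      unfold bipartiteBelow
      rw [filter_filter]
  refine ⟨P1, P2, P3, P4, ?_⟩
  intro v hvz hex
  by_cases hadj : Adj M.toCyc z v
  · obtain ⟨f, g, hgf, hf, hg, hall⟩ := P2' v hadj
    obtain ⟨f1, f2, -⟩ := hE1 f z v hf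
    obtain ⟨g1, g2, -⟩ := hE1 g z v hg
    have hf' : OnE M.toCyc f s(v, z) := by rw [Sym2.eq_swap]; exact hf
    have hg' : OnE M.toCyc g s(v, z) := by rw [Sym2.eq_swap]; exact hg
    obtain ⟨a, haz, ha⟩ := DEG_nb2 hIDX M.toCyc f v z f2 hf'
    obtain ⟨b, hbz, hb⟩ := DEG_nb2 hIDX M.toCyc g v z g2 hg'
    have hfa := (ha a).2 (Or.inr rfl)
    have hgb := (hb b).2 (Or.inr rfl)
    have hab : a ≠ b := by
      rintro rfl
      obtain ⟨-, a2, a3⟩ := hE1 f v a hfa
      obtain ⟨-, b2, -⟩ := hE1 g v a hgb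
      rcases (M.poly f g hgf.symm z v hvz.symm f1 f2 g1 g2).2.2 a a2 b2 with h | h
      · exact haz h
      · exact a3 h.symm
    rw [show univ.filter (fun e : Sym2 V => v ∈ e ∧ z ∉ e ∧
      ∃ A, OnV M.toCyc A z ∧ OnE M.toCyc A e) = {s(v, a), s(v, b)} by
      ext e
      rw [mem_filter, mem_insert, mem_singleton]
      constructor
      · rintro ⟨-, hve, hze, A, hA, hAe⟩
        obtain ⟨w, rfl⟩ := Sym2.mem_iff_exists.1 hve
        have hwz : w ≠ z := by
          rintro rfl
          exact hze (Sym2.mem_mk_right _ _)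
        rcases (hall A).1 ⟨hA, (hE1 A v w hAe).1⟩ with rfl | rfl
        · rcases (ha w).1 hAe with h | h
          · exact absurd h hwz
          · exact Or.inl (by rw [h])
        · rcases (hb w).1 hAe with h | h
          · exact absurd h hwz
          · exact Or.inr (by rw [h])
      · rintro (rfl | rfl)
        · refine ⟨mem_univ _, Sym2.mem_mk_left _ _, ?_, f, f1, hfa⟩
          intro h
          rcases Sym2.mem_iff.1 h with h | h
          · exact hvz h.symm
          · exact haz h.symm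
        · refine ⟨mem_univ _, Sym2.mem_mk_left _ _, ?_, g, g1, hgb⟩
          intro h
          rcases Sym2.mem_iff.1 h with h | h
          · exact hvz h.symm
          · exact hbz h.symm]
    refine card_pair ?_
    intro h
    exact hab (Sym2.congr_right.1 h)
  · obtain ⟨A, hAz, hAv⟩ := hex
    obtain ⟨a, b, hab, h⟩ := DEG_nb hIDX M.toCyc A v hAv
    have hno : ∀ w, OnE M.toCyc A s(v, w) → w ≠ z := by
      rintro w hw rfl
      exact hadj ⟨A, by rw [Sym2.eq_swap]; exact hw⟩
    rw [show univ.filter (fun e : Sym2 V => v ∈ e ∧ z ∉ e ∧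
      ∃ A, OnV M.toCyc A z ∧ OnE M.toCyc A e) = {s(v, a), s(v, b)} by
      ext e
      rw [mem_filter, mem_insert, mem_singleton]
      constructor
      · rintro ⟨-, hve, hze, A', hA', hAe⟩
        obtain ⟨w, rfl⟩ := Sym2.mem_iff_exists.1 hve
        have hAA : A = A' := P1 v A A' hvz hadj hAz hAv hA' (hE1 A' v w hAe).1
        subst hAA
        rcases (h w).1 hAe with h' | h'
        · exact Or.inl (by rw [h'])
        · exact Or.inr (by rw [h'])
      · rintro (rfl | rfl)
        · have ha := (h a).2 (Or.inl rfl)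
          refine ⟨mem_univ _, Sym2.mem_mk_left _ _, ?_, A, hAz, ha⟩
          intro h'
          rcases Sym2.mem_iff.1 h' with h' | h'
          · exact hvz h'.symm
          · exact hno a ha h'.symm
        · have hb := (h b).2 (Or.inr rfl)
          refine ⟨mem_univ _, Sym2.mem_mk_left _ _, ?_, A, hAz, hb⟩
          intro h'
          rcases Sym2.mem_iff.1 h' with h' | h'
          · exact hvz h'.symm
          · exact hno b hb h'.symm]
    refine card_pair ?_
    intro h'
    exact hab (Sym2.congr_right.1 h')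

end Pool.Agent.helper84.NR
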