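import Pool.Agent.helper24.NR.Spec

/-!
# Row `nr:EXN` (MP_133bfc_co)
-/

set_option autoImplicit false

namespace Pool.Agent.NR

open Finset

theorem EXN_sum {V F : Type} [Fintype V] [Fintype F] (vs : F → Finset V) (S : Finset F) :
    ∀ (dm : ∀ w : V, DecidablePred fun f => w ∈ vs f),
    ∑ f ∈ S, (vs f).card = ∑ w : V, (@Finset.filter F (fun f => w ∈ vs f) (dm w) S).card := by
  intro dm
  classical
  have e1 : ∑ f ∈ S, (vs f).card = ∑ f ∈ S, ∑ w : V, (if w ∈ vs f then 1 else 0) := by
    refine sum_congr rfl fun f _ => ?_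
    rw [← card_filter]
    exact congrArg card (by ext i; simp)
  rw [e1, sum_comm]
  refine sum_congr rfl fun w _ => ?_
  rw [← card_filter]

theorem EXN_two {V F : Type} [DecidableEq V] (vs : F → Finset V) (es : F → Finset (Sym2 V)) (hc : Cfg vs es) (x : V) (f : F)
    (hx : x ∈ vs f) : (vs f).card = 2 + ((es f).filter fun e => x ∉ e).card := by
  obtain ⟨a, b, hab, hw⟩ := hc.deg2 f x hx
  have h1 : (es f).filter (fun e => x ∈ e) = {s(x, a), s(x, b)} := by
    ext e
    rw [mem_filter, mem_insert, mem_singleton]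
    constructor
    · rintro ⟨he, hxe⟩
      obtain ⟨w, rfl⟩ := Sym2.mem_iff_exists.1 hxe
      rcases (hw w).1 he with rfl | rfl
      · exact Or.inl rfl
      · exact Or.inr rfl
    · rintro (rfl | rfl)
      · exact ⟨(hw a).2 (Or.inl rfl), Sym2.mem_mk_left _ _⟩
      · exact ⟨(hw b).2 (Or.inr rfl), Sym2.mem_mk_left _ _⟩
  have h2 : ((es f).filter fun e => x ∈ e).card = 2 := by
    rw [h1]
    refine card_pair ?_
    intro h
    exact hab (Sym2.congr_right.1 h)
  have h3 := card_filter_add_card_filter_not (s := es f) (fun e => x ∈ e)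
  rw [h2, hc.card_eq f] at h3
  exact h3.symm

theorem EXN (hDEG : DEG_stmt) (hAWW : AWW_stmt) : EXN_stmt := by
  classical
  intro V F _ _ vs es x y hB
  have hcfg := hB.cfg
  have hdeg := hDEG V F vs es x hcfg
  have hNXW : NX es x ⊆ WW x y := by
    intro v hv
    unfold NX at hv
    unfold WW
    rw [mem_filter] at hv ⊢
    obtain ⟨-, f, hf⟩ := hv
    obtain ⟨h1, h2, h3⟩ := hcfg.ends f x v hf
    refine ⟨mem_univ _, h3.symm, ?_⟩
    rintro rfl
    exact hB.noface f h1 h2
  have hFX : ∀ f, f ∈ FX vs x ↔ x ∈ vs f := by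
    intro f
    unfold FX
    rw [mem_filter]
    exact ⟨fun h => h.2, fun h => ⟨mem_univ _, h⟩⟩
  have hS1 : ∑ f ∈ FX vs x, (vs f).card = (FX vs x).card + ((WW x y).card + (NX es x).card) := by
    rw [EXN_sum vs (FX vs x) (fun w => inferInstance)]
    have hsplit := sum_filter_add_sum_filter_not (univ : Finset V) (fun v => v ≠ x ∧ v ≠ y)
      (fun w => ((FX vs x).filter fun f => w ∈ vs f).card)
    rw [← hsplit]
    have h1 : ∑ w ∈ univ.filter (fun v => v ≠ x ∧ v ≠ y), ((FX vs x).filter fun f => w ∈ vs f).card =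
        (WW x y).card + (NX es x).card := by
      have h2 : ∑ w ∈ univ.filter (fun v => v ≠ x ∧ v ≠ y), ((FX vs x).filter fun f => w ∈ vs f).card =
          ∑ w ∈ WW x y, (1 + if w ∈ NX es x then 1 else 0) := by
        refine sum_congr rfl fun w hw => ?_
        rw [hAWW V F vs es x y hB w hw]
        by_cases h : w ∈ NX es x
        · rw [if_pos h, if_pos h]
        · rw [if_neg h, if_neg h]
      rw [h2, sum_add_distrib, sum_const, smul_eq_mul, mul_one, ← card_filter]
      have h3 : (WW x y).filter (fun w => w ∈ NX es x) = NX es x := by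
        ext w
        rw [mem_filter]
        exact ⟨fun h => h.2, fun h => ⟨hNXW h, h⟩⟩
      rw [h3]
    have h4 : univ.filter (fun v : V => ¬ (v ≠ x ∧ v ≠ y)) = {x, y} := by
      ext v
      rw [mem_filter, mem_insert, mem_singleton]
      constructor
      · rintro ⟨-, h⟩
        by_contra hcon
        rw [not_or] at hcon
        exact h hcon
      · rintro (rfl | rfl)
        · exact ⟨mem_univ _, fun h => h.1 rfl⟩
        · exact ⟨mem_univ _, fun h => h.2 rfl⟩
    rw [h1, h4, sum_pair hB.ne]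
    have h5 : (FX vs x).filter (fun f => x ∈ vs f) = FX vs x :=
      filter_true_of_mem fun f hf => (hFX f).1 hf
    have h6 : (FX vs x).filter (fun f => y ∈ vs f) = ∅ :=
      filter_false_of_mem fun f hf => hB.noface f ((hFX f).1 hf)
    rw [h5, h6, card_empty]
    omega
  have hS2 : ∑ f ∈ FX vs x, (vs f).card =
      ∑ f ∈ FX vs x, (2 + ((es f).filter fun e => x ∉ e).card) :=
    sum_congr rfl fun f hf => EXN_two vs es hcfg x f ((hFX f).1 hf)
  have hS3 : (EX vs es x).card = ∑ f ∈ FX vs x, ((es f).filter fun e => x ∉ e).card := by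
    have h1 : EX vs es x = (FX vs x).biUnion fun f => (es f).filter fun e => x ∉ e := by
      unfold EX EE
      ext e
      rw [mem_filter, mem_biUnion, mem_biUnion]
      constructor
      · rintro ⟨-, hxe, f, hxf, hef⟩
        exact ⟨f, (hFX f).2 hxf, mem_filter.2 ⟨hef, hxe⟩⟩
      · rintro ⟨f, hf, he⟩
        obtain ⟨hef, hxe⟩ := mem_filter.1 he
        exact ⟨⟨f, mem_univ _, hef⟩, hxe, f, (hFX f).1 hf, hef⟩
    rw [h1]
    refine card_biUnion ?_
    intro f hf g hg hfg
    show Disjoint ((es f).filter fun e => x ∉ e) ((es g).filter fun e => x ∉ e)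
    rw [disjoint_left]
    intro e he he'
    obtain ⟨hef, hxe⟩ := mem_filter.1 he
    obtain ⟨heg, -⟩ := mem_filter.1 he'
    obtain ⟨u, v, rfl⟩ : ∃ u v, e = s(u, v) := by
      induction e using Sym2.ind with
      | _ u v => exact ⟨u, v, rfl⟩
    obtain ⟨a1, a2, a3⟩ := hcfg.ends f u v hef
    obtain ⟨b1, b2, -⟩ := hcfg.ends g u v heg
    have hxu : x ≠ u := fun h => hxe (by rw [h]; exact Sym2.mem_mk_left _ _)
    have hxv : x ≠ v := fun h => hxe (by rw [h]; exact Sym2.mem_mk_right _ _)
    exact hcfg.meet3 f g hfg x u v hxu a3 hxv ((hFX f).1 hf) a1 a2 ((hFX g).1 hg) b1 b2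
  rw [sum_add_distrib, sum_const, smul_eq_mul, ← hS3, hS1] at hS2
  omega

end Pool.Agent.NR
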